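import Pool.Agent.MBX.Stmts

/-!
# MBX, row NFI: nice functions are integrable
-/

set_option autoImplicit false

open MeasureTheory Complex ProbabilityTheory

namespace Pool.Agent.MBX.H28

open Pool.Agent.Helper49_Pauli
open Pool.Agent.Loc

theorem nfi : NfiStmt := by
  intro ι _ _ F hF
  obtain ⟨hc, C, m, R, hC, hb⟩ := hF
  have h1 : Integrable (fun y : ι → ℝ => C * ∏ i, (1 + |y i|) ^ m) (γn ι) :=
    (Integrable.fintype_prod (μ := fun _ : ι => γ1) (f := fun _ t => (1 + |t|) ^ m)
      fun _ => integrable_poly_gauss m).const_mul C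
  have h2 : Integrable (Set.indicator (Metric.closedBall (0 : X3) R) fun _ => (1 : ℝ)) volume :=
    (integrable_indicator_iff measurableSet_closedBall).2
      (integrableOn_const (isCompact_closedBall (0 : X3) R).measure_lt_top.ne)
  have h3 := h1.mul_prod h2
  refine h3.mono' hc.aestronglyMeasurable (Filter.Eventually.of_forall fun z => ?_)
  rw [Real.norm_eq_abs]
  obtain ⟨hz1, hz2⟩ := hb z.1 z.2
  by_cases hz : z.2 ∈ Metric.closedBall (0 : X3) R
  · rw [Set.indicator_of_mem hz, mul_one]
    exact hz1
  · rw [Set.indicator_of_notMem hz, mul_zero]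
    rw [hz2 (by
      rw [mem_closedBall_zero_iff, not_le] at hz
      exact hz.le)]
    simp

end Pool.Agent.MBX.H28
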